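import Pool.Agent.Q204.WA.TruthC

set_option autoImplicit false

/-!
# A theory all of whose completions are of unrestricted complexity, outside the three classes

Formulas of the language `{0, 1, +, ×, <}`, their semantics, the classes `Δ₀`, `Σₙ`, `Πₙ`,
Robinson arithmetic (`QAx`) and the classes of theories `TQ`, `Tnrestr`, `TMRDP`, `Tnrec` and
`TtruthU` are defined in `Pool/Agent/Q204/WA/Defs.lean`, the class `Ttruth` in
`Pool/Agent/Q204/WA/TruthC.lean`.

Idea of the proof. `T` is the complete theory of a model `M = ℕ ∪ {∞_A : A a finite set of nodes}`
of `Q`, where the nodes are those of a tree with infinitely many types of nodes. Here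
`∞_A + ∞_B = ∞_A · ∞_B = ∞_{A ∪ B}`, `∞_A + n = n + ∞_A = ∞_A`, and `1 · ∞_{k}`, `0 · ∞_{k}` give
the parent and the label of the node `k`. Since there are only finitely many `∞_B < ∞_A`, a `Δ₀`
formula sees only a finite part of the tree, while, with parameter `∞_∅`, it can express every
arithmetical statement about `ℕ`. The tree is such that replacing the type of a child of the root
by another one changes the theory but not the `Σₙ` sentences, so `T` is not axiomatized by
`Σₙ` sentences. The model is recursive; by the second property `T` does not prove MRDP (else all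
arithmetical sets would be recursively enumerable), and `M` has no definable truth predicate for
`Δ₀` formulas (else arithmetical truth would be arithmetical).
-/

namespace Pool.Agent.Results.MP_352f7f_lc.UnrestrictedSeparated

open Q204.WA

/-- There is a consistent complete theory `T ⊇ Q` with no completion of restricted complexity
such that `T` does not prove MRDP, has no truth definition for `Δ₀` formulas, and has a nonstandard
recursive model. In particular the class `Tnrestr` differs from each of the three other classes. -/
theorem result :
    (∃ T : Set Fm, (∀ φ, IsSentence φ → φ ∈ T ∨ Fm.neg φ ∈ T) ∧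
      T ∈ Tnrestr ∧ T ∉ TMRDP ∧ T ∉ Ttruth ∧ T ∉ TtruthU ∧ T ∉ Tnrec) ∧
      Tnrestr ≠ TMRDP ∧ Tnrestr ≠ Ttruth ∧ Tnrestr ≠ Tnrec := by
  have h := mem_Tnrestr
  exact ⟨⟨Th (Mst .rho), fun _ hs => Th_complete _ hs, h, notMem_TMRDP, notMem_Ttruth,
      notMem_TtruthU, notMem_Tnrec⟩,
    fun e => notMem_TMRDP (e ▸ h), fun e => notMem_Ttruth (e ▸ h), fun e => notMem_Tnrec (e ▸ h)⟩

end Pool.Agent.Results.MP_352f7f_lc.UnrestrictedSeparated
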